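import Mathlib
import Pool.Agent.R477.FC.Monic4

/-!
# The Fermat-Catalan equation with bases whose expansions to a common base are monic with small digits

For every `D` there are only finitely many value triples `(x ^ p, y ^ q, z ^ r)` of solutions of the
Fermat-Catalan equation (all exponents free) with the property that for some integer `w ≥ 1` the three bases
are values `F(w)`, `G(w)`, `H(w)` of monic integer polynomials of degree between `1` and `D` whose other
coefficients have absolute value at most `w ^ δ`, `δ = 1 / (4 D ^ 4 + 4 D + 2)`.

The polynomials are not fixed: the result is uniform over all of them, and in particular it gives finiteness for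
any fixed triple of nonconstant monic polynomials. It also says that there are only finitely many solutions for
which the base `w` expansions of the three bases have, for some common `w`, at most `D + 1` digits, leading
digit `1` and all other digits (signed digits are allowed) at most `w ^ δ`.

Proof. Linear forms in two logarithms bound the exponents by a power of `log w`. Let `x ^ p` and `z ^ r`
be the two largest terms. Then `deg (F ^ p) = deg (H ^ r)` and `P = H ^ r - F ^ p` satisfies
`F ^ (p - 1) (r H' F - p F' H) = P' H - r P H'`, so that `P` has degree `a p - s` with `0 < s < deg F + deg H`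
and the leading coefficient `λ` of `P` satisfies `s |λ| = |lc (r H' F - p F' H)|`, which is `O(w ^ (1/2))`.
The lower terms of `P(w) = y ^ q` are negligible, and comparing with `y ^ q = w ^ (b q) (1 + o(1))` gives
`λ = 1`. Then `gcd (p, r)` divides `s` and all exponents are bounded in terms of `D`. So `w` is larger than all
the coefficients of `H ^ r - F ^ p - G ^ q`, which must vanish identically; the Mason-Stothers theorem forbids this.
-/

set_option autoImplicit false

namespace Pool.Agent.Results.MP_2738db_nt.MonicExpansions

open Polynomial

/-- `F` is monic of degree between `1` and `D` and its other coefficients have absolute value at most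
`w ^ δ` -/
def Small (w D : ℕ) (δ : ℝ) (F : ℤ[X]) : Prop :=
  F.Monic ∧ 0 < F.natDegree ∧ F.natDegree ≤ D ∧
    ∀ i, i < F.natDegree → |(F.coeff i : ℝ)| ≤ (w : ℝ) ^ δ

/-- the value triples `(x ^ p, y ^ q, z ^ r)` of the solutions of `x ^ p + y ^ q = z ^ r` in pairwise coprime
positive integers `x`, `y`, `z` and positive exponents with `1/p + 1/q + 1/r < 1` whose bases are the
values `F(w)`, `G(w)`, `H(w)` at a positive integer `w` of monic integer polynomials of degree
between `1` and `D` whose other coefficients have absolute value at most `w ^ δ` -/
def Values (D : ℕ) (δ : ℝ) : Set (ℕ × ℕ × ℕ) :=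
  {v | ∃ (x y z p q r w : ℕ) (F G H : ℤ[X]), 0 < x ∧ 0 < y ∧ 0 < z ∧ Nat.Coprime x y ∧
    Nat.Coprime x z ∧ Nat.Coprime y z ∧ 0 < p ∧ 0 < q ∧ 0 < r ∧ (1 : ℚ) / p + 1 / q + 1 / r < 1 ∧
    x ^ p + y ^ q = z ^ r ∧ v = (x ^ p, y ^ q, z ^ r) ∧ 0 < w ∧
    Small w D δ F ∧ Small w D δ G ∧ Small w D δ H ∧
    F.eval (w : ℤ) = x ∧ G.eval (w : ℤ) = y ∧ H.eval (w : ℤ) = z}

theorem result : ∀ D : ℕ, (Values D (1 / (4 * D ^ 4 + 4 * D + 2))).Finite :=
  fun D => Pool.Agent.R477.FC.monic_main D

end Pool.Agent.Results.MP_2738db_nt.MonicExpansions
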