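import Mathlib
import Pool.Agent.R477.FC.Count

/-!
# The Fermat-Catalan equation with the three bases in an arbitrary polynomial family

There is an absolute `κ` such that for all integer polynomials `f`, `g`, `h`, not all of them constant, there
are at most `C (log N) ^ κ` pairs of an integer `n`, `|n| ≤ N`, and a value triple
`(|f(n)| ^ p, |g(n)| ^ q, |h(n)| ^ r)` of a solution of the Fermat-Catalan equation with the bases
`|f(n)|`, `|g(n)|`, `|h(n)|`. All three exponents are free. No condition on the polynomials is needed.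

Proof. By linear forms in two logarithms the exponents of the bases `≥ 2` are at most a power of `log N`.
For given exponents the integers `n` are roots of a polynomial `± f ^ p ± g ^ q ± h ^ r`, which is not
zero by the theorem of Mason and Stothers.
-/

set_option autoImplicit false

namespace Pool.Agent.Results.MP_2738db_nt.PolynomialBasesCount

open Polynomial

/-- `x`, `y`, `z`, with the exponents `p`, `q`, `r`, are the bases of a solution of the Fermat-Catalan
equation: they are pairwise coprime and positive, `1/p + 1/q + 1/r < 1`, and one of the powers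
`x ^ p`, `y ^ q`, `z ^ r` is the sum of the two others -/
def Bases (x y z p q r : ℕ) : Prop :=
  0 < x ∧ 0 < y ∧ 0 < z ∧ Nat.Coprime x y ∧ Nat.Coprime x z ∧ Nat.Coprime y z ∧
    0 < p ∧ 0 < q ∧ 0 < r ∧ (1 : ℚ) / p + 1 / q + 1 / r < 1 ∧
    (x ^ p + y ^ q = z ^ r ∨ x ^ p + z ^ r = y ^ q ∨ y ^ q + z ^ r = x ^ p)

/-- the pairs `(n, v)` of an integer `n`, `|n| ≤ N`, and the triple `v` of the terms of a solution with
bases `|f(n)|`, `|g(n)|`, `|h(n)|` -/
def Pairs (f g h : ℤ[X]) (N : ℕ) : Set (ℤ × (ℕ × ℕ × ℕ)) :=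
  {w | |w.1| ≤ N ∧ ∃ p q r : ℕ,
    Bases (f.eval w.1).natAbs (g.eval w.1).natAbs (h.eval w.1).natAbs p q r ∧
    w.2 = ((f.eval w.1).natAbs ^ p, (g.eval w.1).natAbs ^ q, (h.eval w.1).natAbs ^ r)}

theorem result : ∃ κ : ℕ, ∀ f g h : ℤ[X],
    (0 < f.natDegree ∨ 0 < g.natDegree ∨ 0 < h.natDegree) → ∃ C : ℝ, ∀ N : ℕ, 2 ≤ N →
      (Pairs f g h N).Finite ∧ ((Pairs f g h N).ncard : ℝ) ≤ C * (Real.log N) ^ κ :=
  Pool.Agent.R477.FC.count_main

end Pool.Agent.Results.MP_2738db_nt.PolynomialBasesCount
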