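import Mathlib
import Pool.Agent.R476.TC.Main

/-!
# The Fermat-Catalan equation with two given coprime bases: very few exponents

There are constants `C`, `κ` such that for ALL coprime integers `a, b ≥ 2` and all `N ≥ 1` there
are at most `C ^ ω(a b) * (log (a b N)) ^ κ` pairs of exponents `(m, n)`, `1 ≤ m, n ≤ N`, for which
one of the numbers `a ^ m + b ^ n`, `a ^ m - b ^ n`, `b ^ n - a ^ m` is a perfect power `c ^ k`,
`k ≥ 2`. The third base and the third exponent are completely free, and the bound is uniform in the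
two bases: it depends on them only through `log (a b)` and the number `ω(a b)` of the primes
dividing them.

Proof. It is enough to treat prime exponents `q` of `c`. Linear forms in two `2`-adic logarithms
give `q ≤ C (log (a b N)) ^ κ`. For a given prime `q` the solutions are put into classes in such a
way that two solutions `(m, n)`, `(m', n')` of a class satisfy a gap principle. For `q < 200` the
classes are given by the exponents modulo `q`, the approximate size and residues of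
`c / a ^ [m / q]` modulo the primes dividing `b`, altogether `C ^ ω(a b)` classes. For `q ≥ 200`
that many classes are too many to be independent of `q`: instead the residues are used only for a
set `T` of at most `20 ω(b) / q + 1` primes dividing `b` whose part of `b` is at least
`b ^ (20 / q)`; as `q ^ 20 ≤ 2 ^ q` there are at most `q ^ 2 2 ^ ω(b)` classes. In a class
`c X' - c' X`, `X = a ^ [m / q]`, is divisible by a large number composed of the primes of `T`, and
is different from zero, while `(c X') ^ q - (c' X) ^ q = ± (b ^ n X' ^ q - b ^ n' X ^ q)` is small;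
this gives `m' ≥ 8 m`, so that there are `O(log N)` solutions in a class.
-/

set_option autoImplicit false

namespace Pool.Agent.Results.MP_2738db_nt.TwoGivenBases

open Pool.Agent.R476.TC

/-- There are constants `C`, `κ` such that for all coprime integers `a, b ≥ 2` and all `N ≥ 1`
there are at most `C ^ ω(a b) * (log (a b N)) ^ κ` pairs of exponents `(m, n)`, `1 ≤ m, n ≤ N`, for
which one of the numbers `a ^ m + b ^ n`, `a ^ m - b ^ n`, `b ^ n - a ^ m` is a perfect power
`c ^ k` with `k ≥ 2`. -/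
theorem result : ∃ C κ : ℕ, ∀ a b : ℕ, 2 ≤ a → 2 ≤ b → Nat.Coprime a b → ∀ N : ℕ, 1 ≤ N →
    (Set.ncard {p : ℕ × ℕ | 1 ≤ p.1 ∧ p.1 ≤ N ∧ 1 ≤ p.2 ∧ p.2 ≤ N ∧ ∃ c k : ℕ, 2 ≤ k ∧
      (a ^ p.1 + b ^ p.2 = c ^ k ∨ a ^ p.1 = b ^ p.2 + c ^ k ∨ b ^ p.2 = a ^ p.1 + c ^ k)} : ℝ) ≤
      (C : ℝ) ^ (a * b).primeFactors.card * Real.log (a * b * N) ^ κ := by
  classical
  obtain ⟨C, κ, h⟩ := two_bases
  refine ⟨C * 3 ^ κ, κ, ?_⟩
  intro a b ha hb hab N hN
  obtain ⟨W, hW⟩ : ∃ W : Set (ℕ × ℕ), W = {p : ℕ × ℕ | 1 ≤ p.1 ∧ p.1 ≤ N ∧ 1 ≤ p.2 ∧ p.2 ≤ N ∧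
      ∃ c k : ℕ, 2 ≤ k ∧ (a ^ p.1 + b ^ p.2 = c ^ k ∨ a ^ p.1 = b ^ p.2 + c ^ k ∨
        b ^ p.2 = a ^ p.1 + c ^ k)} := ⟨_, rfl⟩
  rw [← hW]
  have hfin : W.Finite := by
    refine Set.Finite.subset ((Finset.Icc 1 N ×ˢ Finset.Icc 1 N).finite_toSet) ?_
    intro p hp
    rw [hW] at hp
    rw [Finset.mem_coe, Finset.mem_product, Finset.mem_Icc, Finset.mem_Icc]
    exact ⟨⟨hp.1, hp.2.1⟩, hp.2.2.1, hp.2.2.2.1⟩
  obtain ⟨F, hF⟩ : ∃ F : Finset (ℕ × ℕ), (F : Set (ℕ × ℕ)) = W :=
    ⟨hfin.toFinset, hfin.coe_toFinset⟩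
  have h1 := h a b ha hb hab N hN F (by
    intro x hx
    have h2 : x ∈ W := by rw [← hF]; exact hx
    rw [hW] at h2
    exact h2)
  rw [← hF, Set.ncard_coe_finset]
  obtain ⟨L, hL⟩ : ∃ L, L = Nat.log 2 (a * b * N) := ⟨_, rfl⟩
  rw [← hL] at h1
  have hw1 : 1 ≤ (a * b).primeFactors.card := by
    rw [Nat.succ_le_iff, Finset.card_pos, Nat.nonempty_primeFactors]
    nlinarith
  generalize (a * b).primeFactors.card = w at h1 hw1 ⊢
  have hpos : 3 ≤ a * b * N := by
    have h6 : 4 ≤ a * b := Nat.mul_le_mul ha hb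
    nlinarith
  have hlog1 : 1 ≤ Real.log (a * b * N) := by
    have h3 : (3 : ℝ) ≤ a * b * N := by exact_mod_cast hpos
    rw [Real.le_log_iff_exp_le (by linarith)]
    have := Real.exp_one_lt_d9
    linarith
  have hlog2 : ((L + 1 : ℕ) : ℝ) ≤ 3 * Real.log (a * b * N) := by
    have h2 : 2 ^ L ≤ a * b * N := by
      rw [hL]
      exact Nat.pow_log_le_self 2 (by omega)
    have h3 : ((2 : ℝ) ^ L) ≤ a * b * N := by exact_mod_cast h2
    have h4 := Real.log_le_log (by positivity) h3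
    rw [Real.log_pow] at h4
    have h5 := Real.log_two_gt_d9
    have h6 : (0 : ℝ) ≤ L := Nat.cast_nonneg _
    push_cast
    nlinarith
  have h2 : (F.card : ℝ) ≤ (C : ℝ) ^ w * ((L + 1 : ℕ) : ℝ) ^ κ := by exact_mod_cast h1
  have h3 : (1 : ℝ) ≤ 3 ^ κ := one_le_pow₀ (by norm_num)
  calc (F.card : ℝ) ≤ (C : ℝ) ^ w * ((L + 1 : ℕ) : ℝ) ^ κ := h2
    _ ≤ (C : ℝ) ^ w * (3 * Real.log (a * b * N)) ^ κ := by
        refine mul_le_mul_of_nonneg_left (pow_le_pow_left₀ (Nat.cast_nonneg _) hlog2 _)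
          (by positivity)
    _ = (C : ℝ) ^ w * 3 ^ κ * Real.log (a * b * N) ^ κ := by rw [mul_pow]; ring
    _ ≤ (C : ℝ) ^ w * (3 ^ κ) ^ w * Real.log (a * b * N) ^ κ := by
        refine mul_le_mul_of_nonneg_right (mul_le_mul_of_nonneg_left
          (le_self_pow₀ h3 (by omega)) (by positivity)) (by positivity)
    _ = ((C * 3 ^ κ : ℕ) : ℝ) ^ w * Real.log (a * b * N) ^ κ := by
        push_cast
        rw [mul_pow]

end Pool.Agent.Results.MP_2738db_nt.TwoGivenBases
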