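import Mathlib
import Pool.Agent.R477.FC.FamMain

/-!
# The Fermat-Catalan equation in polynomial families of bases with a unit specialisation

Let `f`, `g`, `h` be integer polynomials which at some point (for example at `0`, or at the zeros of a
polynomial `d`) specialise to zero and two roots of unity: `d ∣ f`, `g ^ m ≡ h ^ m ≡ 1 (mod d)`. Then, with
all three exponents free, only finitely many integers `n` are such that `|f(n)|`, `|g(n)|`, `|h(n)|` are
the bases of a solution (exponents `p`, `q`, `r`) and one of the following holds: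

* the power of `f(n)` is the largest of the three terms;
* `d ^ (p - 1)` does not divide both `g'` and `h'` over `ℚ` (always so for `p > deg g + deg h`; no
  condition at all if `d` does not divide both `g'` and `h'`);
* the leading coefficients of `g` and `h` are `± 1` (then there is no condition either).

Example: `(a n ^ 2 + 1) ^ x + (b n ^ 2 - 1) ^ y = (c n) ^ z` has only finitely many solutions `(n, x, y, z)`
in the sense of the Fermat-Catalan conjecture.

Proof. Linear forms in two logarithms bound the exponents by a power of `log n`. Hence the congruence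
`h(n) ^ (2 m r) ≡ g(n) ^ (2 m q)` modulo `d(n) ^ p` comes from a congruence of polynomials modulo
`d ^ p`. Differentiation gives `d ^ (p - 1) ∣ r h' g - q g' h`, where the right-hand side is not zero and has
degree less than `deg g + deg h`; so `p ≤ deg g + deg h`. Then `f(n) ^ p` is at most a fixed power of `n`
and the ratio `r / q` is fixed or `q`, `r` are bounded, and a fixed ratio also gives bounded exponents.
The theorem of Mason and Stothers finishes the proof.
-/

set_option autoImplicit false

namespace Pool.Agent.Results.MP_2738db_nt.UnitSpecialisation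

open Polynomial

/-- `x`, `y`, `z`, with the exponents `p`, `q`, `r`, are the bases of a solution of the Fermat-Catalan
equation: they are pairwise coprime and positive, `1/p + 1/q + 1/r < 1`, and one of the powers
`x ^ p`, `y ^ q`, `z ^ r` is the sum of the two others -/
def Bases (x y z p q r : ℕ) : Prop :=
  0 < x ∧ 0 < y ∧ 0 < z ∧ Nat.Coprime x y ∧ Nat.Coprime x z ∧ Nat.Coprime y z ∧
    0 < p ∧ 0 < q ∧ 0 < r ∧ (1 : ℚ) / p + 1 / q + 1 / r < 1 ∧
    (x ^ p + y ^ q = z ^ r ∨ x ^ p + z ^ r = y ^ q ∨ y ^ q + z ^ r = x ^ p)

/-- The value triples `v = (A, B, C)`, `A + B = C`, of the solutions with bases `|f(n)|`, `|g(n)|`, `|h(n)|`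
for which one of the three conditions above holds are finite in number. -/
theorem result (d f g h : ℤ[X]) (m : ℕ) (hd : 0 < d.natDegree) (hg : 0 < g.natDegree)
    (hh : 0 < h.natDegree) (hm : 0 < m) (df : d ∣ f) (dg : d ∣ g ^ m - 1) (dh : d ∣ h ^ m - 1) :
    {v : ℕ × ℕ × ℕ | v.1 + v.2.1 = v.2.2 ∧ ∃ (n : ℤ) (p q r : ℕ),
      Bases (f.eval n).natAbs (g.eval n).natAbs (h.eval n).natAbs p q r ∧
      ({v.1, v.2.1, v.2.2} : Multiset ℕ) =
        {(f.eval n).natAbs ^ p, (g.eval n).natAbs ^ q, (h.eval n).natAbs ^ r} ∧
      ((g.eval n).natAbs ^ q + (h.eval n).natAbs ^ r = (f.eval n).natAbs ^ p ∨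
        ¬ ((d.map (Int.castRingHom ℚ)) ^ (p - 1) ∣ (derivative g).map (Int.castRingHom ℚ) ∧
           (d.map (Int.castRingHom ℚ)) ^ (p - 1) ∣ (derivative h).map (Int.castRingHom ℚ)) ∨
        (|g.leadingCoeff| = 1 ∧ |h.leadingCoeff| = 1))}.Finite :=
  Pool.Agent.R477.FC.fam_main d f g h m hd hg hh hm df dg dh

end Pool.Agent.Results.MP_2738db_nt.UnitSpecialisation
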